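import Pool.Agent.Lib_helper78.PLS.Defs
import Pool.Agent.Lib_helper78.AIP.Main
import Pool.Agent.Lib_helper78.RO.F.BAL
import Pool.Agent.Lib_helper74.NE.Mach
import Pool.Agent.Lib_helper74.NE.Bridge

/-!
# The negated form above every oracle, with an infinite polynomial hierarchy (MP_5c38ab_lc)
-/

set_option autoImplicit false

namespace Pool.Agent.PLS

open Pool.Agent.CK Pool.Agent.RF Pool.Agent.RO Pool.Agent.ADV Pool.Agent.TD Pool.Agent.AEC
open Pool.Agent.CKP
open Pool.Agent.PHS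

theorem infPH (R : Lang) (β : ℕ → ℕ) (hβ : Filter.Tendsto β Filter.atTop Filter.atTop) :
    ∃ O : Lang, InP O R ∧ Q1False O ∧ InfinitePH O ∧
      ∃ G F K, TrapdoorPermutations O G F K ∧ Secure O G F (fun n => 2 ^ (n / β n)) := by
  obtain ⟨A, hA, ha, hb, -⟩ := AIP.mainAIP2
  obtain ⟨P, G, F, K, hP⟩ := hb R β hβ
  obtain ⟨H, w, hw, -, h5⟩ := ha (join P R)
  obtain ⟨h1, h2, h3⟩ := hP H w hw
  refine ⟨join (join P R) H, ?_, ⟨base_all _, fun B hB => ?_⟩, h3, G, F, K, h1, h2⟩
  · have h6 : PTime (join (join P R) H)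
        (fun x : List Bool => join (join P R) H (false :: true :: x)) :=
      PTime.ask (PTime.cons (PTime.const false) (PTime.cons (PTime.const true) PTime.id))
    exact inP_of h6
  · obtain ⟨S, hS, h6, -⟩ := h5 B hB.1.toBase
    exact ⟨S, hS, h6⟩

end Pool.Agent.PLS
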