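import Pool.Agent.Lib_helper78.ADV.Base
import Pool.Agent.Lib_helper78.RO.Base
import Pool.Agent.Lib_helper74.PHS.Defs

/-!
# Q1 and its consistency version CON relative to an oracle (MP_5c38ab_lc)
-/

set_option autoImplicit false

namespace Pool.Agent.PLS

open Pool.Agent.CK Pool.Agent.RF Pool.Agent.RO Pool.Agent.ADV Pool.Agent.PHS

/-- A base theory: a set of true sentences, decidable in polynomial time with oracle `O`, which
contains `S^1_2`, the true sentences `a ≤ b` and the diagram of `O`, and refutes every false
sentence `μ₁(e, x, z)`, `Σ^b_1RFN_T(n)`, `Con_T(n)`. -/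
def BaseTheory (O : Lang) (B : Fm → Prop) : Prop := BaseD O B ∧ ∀ σ, S12 σ → B σ

/-- Q1 is false relative to `O` (the negated form): base theories exist, and for every base theory
`B` there is a theory `S` in the class such that for every theory `T` in the class the sentences
`Σ^b_1RFN_T(n)` have `S`-proofs of polynomial length, which are even computable from `1^n` in
polynomial time.  (The class: consistent theories that contain `B`, with axioms decidable in
polynomial time with oracle `O`.) -/
def Q1False (O : Lang) : Prop := (∃ B, BaseTheory O B) ∧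
  ∀ B, BaseTheory O B → ∃ S, InT O B S ∧ ∀ T, InT O B T → EasyProofs O S (RFN T)

/-- CON is false relative to `O`: as `Q1False`, with the sentences `Con_T(n)`. -/
def ConFalse (O : Lang) : Prop := (∃ B, BaseTheory O B) ∧
  ∀ B, BaseTheory O B → ∃ S, InT O B S ∧ ∀ T, InT O B T → EasyProofs O S (Con T)

/-- Q1 is true relative to `O`: base theories exist, and for every base theory `B` and every `S` in
the class there is `T` in the class such that the sentences `Σ^b_1RFN_T(n)` do not have `S`-proofs
of polynomial length. -/
def Q1True (O : Lang) : Prop := (∃ B, BaseTheory O B) ∧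
  ∀ B, BaseTheory O B → ∀ S, InT O B S → ∃ T, InT O B T ∧ ¬ PolyBounded O S (RFN T)

/-- Q1 and CON are true relative to `O`, with exponential lower bounds: base theories exist, and for
every base theory `B` and every `S` in the class there is `T` in the class such that neither the
sentences `Σ^b_1RFN_T(n)` nor the sentences `Con_T(n)` have `S`-proofs of polynomial length; for
infinitely many `n` all their `S`-proofs have length greater than `2 ^ (n ^ (1/7) - 1)`
(`n < d ^ 7` for the number `d` of binary digits of the length). -/
def BothTrueExp (O : Lang) : Prop := (∃ B, BaseTheory O B) ∧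
  ∀ B, BaseTheory O B → ∀ S, InT O B S → ∃ T, InT O B T ∧
    ¬ PolyBounded O S (RFN T) ∧ ¬ PolyBounded O S (Con T) ∧
    ∀ m, ∃ n, m ≤ n ∧ ∀ l : List Fm,
      (IsProof (Ax O S) (l ++ [RFN T n]) → n < (Nat.size (pEnc (l ++ [RFN T n])).length) ^ 7) ∧
      (IsProof (Ax O S) (l ++ [Con T n]) → n < (Nat.size (pEnc (l ++ [Con T n])).length) ^ 7)

/-- The polynomial hierarchy is infinite relative to `O`. -/
def InfinitePH (O : Lang) : Prop := ∀ k, ∃ L, InSig O (k + 1) L ∧ ¬ InSig O k L

end Pool.Agent.PLS
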