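import Pool.Agent.Lib_helper78.AEC.MlDefs

/-!
# Oracles that contain their own multilinear extensions (MP_5c38ab_lc)
-/

set_option autoImplicit false

namespace Pool.Agent.PLS

open Pool.Agent.CK Pool.Agent.AEC

/-- The oracle `O` contains its own multilinear extensions over the fields `K k` of `Φ`: `011c`, where
`c` is the code of `l`, `k`, a point `y` of `(K k)^l` and a number `i`, asks for the coordinate `i` of
the value at `y` of the multilinear extension of the restriction of `O` to `{0,1}^l`. -/
def SelfAffine (Φ : Fields) (O : Lang) : Prop :=
  ∀ (l k : ℕ) (y : Fin l → Φ.K k) (i : Fin (Φ.d k)),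
    O (false :: true :: true :: code Φ l k y i) = decide ((Φ.basis k).repr (mle Φ O l k y) i = 1)

end Pool.Agent.PLS
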