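import Pool.Agent.Lib_helper78.PLS.Defs
import Pool.Agent.Lib_helper78.PLS.AffDefs
import Pool.Agent.Lib_helper78.AEC.Fin
import Pool.Agent.Lib_helper78.RO.F.BAL
import Pool.Agent.Lib_helper74.NE.Mach
import Pool.Agent.Lib_helper74.NE.Bridge

/-!
# The negated form above every oracle, relative to self-affine oracles (MP_5c38ab_lc)
-/

set_option autoImplicit false

namespace Pool.Agent.PLS

open Pool.Agent.CK Pool.Agent.RF Pool.Agent.RO Pool.Agent.ADV Pool.Agent.TD Pool.Agent.AEC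
open Pool.Agent.CKP

theorem affine (Φ : Fields) (R : Lang) (β : ℕ → ℕ)
    (hβ : Filter.Tendsto β Filter.atTop Filter.atTop) :
    ∃ O : Lang, InP O R ∧ SelfAffine Φ O ∧ Q1False O ∧
      (∃ L, InNP O L ∧ ¬ InNP O (fun x => !L x)) ∧
      ∃ G F K, TrapdoorPermutations O G F K ∧ Secure O G F (fun n => 2 ^ (n / β n)) := by
  obtain ⟨A, hA, h⟩ := mainAEC
  have hadm : Adm (fun _ => (∅ : Finset (List Bool))) := fun w s hs => by simp at hs
  obtain ⟨P, G, F, K, L, hP⟩ := (h (fun _ => ∅) Φ hadm R).2 β hβ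
  obtain ⟨H, w, O, hw, hO, -, h5⟩ := (h (fun _ => ∅) Φ hadm (join P R)).1
  obtain ⟨h1, h2, h3, h4⟩ := hP H w O hw hO
  refine ⟨O, ?_, hO.mlin, ⟨base_all O, fun B hB => ?_⟩, ⟨L, h3, h4⟩, G, F, K, h1, h2⟩
  · have h6 : PTime O (fun x : List Bool => O (false :: false :: true :: x)) :=
      PTime.ask (PTime.cons (PTime.const false) (PTime.cons (PTime.const false)
        (PTime.cons (PTime.const true) PTime.id)))
    have h7 : (fun x : List Bool => O (false :: false :: true :: x)) = R := by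
      funext x
      rw [hO.fst]
      rfl
    rw [h7] at h6
    exact inP_of h6
  · obtain ⟨S, hS, h6, -⟩ := h5 B hB.1.toBase
    exact ⟨S, hS, h6⟩

end Pool.Agent.PLS
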