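import Pool.Agent.Lib_helper78.PLS.Defs
import Pool.Agent.Lib_helper78.RO.Final

/-!
# Q1 and CON relative to `A ⊕ R` for a random oracle `R` (MP_5c38ab_lc)
-/

set_option autoImplicit false

namespace Pool.Agent.PLS

open Pool.Agent.CK Pool.Agent.RF Pool.Agent.RO MeasureTheory

/-- the distribution of the answer of `A ⊕ R` to the question `x` -/
noncomputable def nuJ (A : Lang) (μ : Measure Bool) : List Bool → Measure Bool
  | [] => Measure.dirac false
  | false :: w => Measure.dirac (A w)
  | true :: _ => μ

instance nuJ_prob (A : Lang) (μ : Measure Bool) [IsProbabilityMeasure μ] (x : List Bool) :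
    IsProbabilityMeasure (nuJ A μ x) := by
  match x with
  | [] => exact Measure.dirac.isProbabilityMeasure
  | false :: w => exact Measure.dirac.isProbabilityMeasure
  | true :: w => assumption

theorem measurable_joinR (A : Lang) : Measurable (join A) := by
  refine measurable_pi_lambda _ fun x => ?_
  match x with
  | [] => exact measurable_const
  | false :: w => exact measurable_const
  | true :: w => exact measurable_pi_apply w

theorem map_join (A : Lang) (μ : Measure Bool) [IsProbabilityMeasure μ] :
    (Measure.infinitePi fun _ : List Bool => μ).map (join A) = Measure.infinitePi (nuJ A μ) := by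
  classical
  apply Measure.eq_infinitePi
  intro s t ht
  rw [Measure.map_apply (measurable_joinR A) (MeasurableSet.pi s.countable_toSet
    fun i _ => ht i)]
  let W : Finset (List Bool) := (s.filter fun x => x.head? = some true).image List.tail
  have hW : ∀ w, w ∈ W ↔ true :: w ∈ s := by
    intro w
    simp only [W, Finset.mem_image, Finset.mem_filter]
    constructor
    · rintro ⟨x, ⟨hx, hx'⟩, rfl⟩
      match x, hx' with
      | true :: l, _ => exact hx
    · intro h
      exact ⟨true :: w, ⟨h, rfl⟩, rfl⟩
  have hprod : ∏ x ∈ s with x.head? = some true, nuJ A μ x (t x) =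
      ∏ w ∈ W, μ (t (true :: w)) := by
    symm
    refine Finset.prod_bij (fun w _ => true :: w) (fun w hw => ?_) (fun a _ b _ h => ?_)
      (fun x hx => ?_) fun w _ => rfl
    · rw [Finset.mem_filter]
      exact ⟨(hW w).1 hw, rfl⟩
    · exact (List.cons.inj h).2
    · rw [Finset.mem_filter] at hx
      obtain ⟨hx, hx'⟩ := hx
      match x, hx' with
      | true :: l, _ => exact ⟨l, (hW l).2 hx, rfl⟩
  rw [← Finset.prod_filter_mul_prod_filter_not s (fun x => x.head? = some true), hprod]
  by_cases hc : ∀ x ∈ s, ¬ x.head? = some true → join A (fun _ => false) x ∈ t x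
  · have h1 : (join A) ⁻¹' ((s : Set (List Bool)).pi t) =
        (W : Set (List Bool)).pi fun w => t (true :: w) := by
      ext R
      simp only [Set.mem_preimage, Set.mem_pi, Finset.mem_coe]
      constructor
      · intro h w hw
        exact h (true :: w) ((hW w).1 hw)
      · intro h x hx
        match x, hx with
        | [], hx => exact hc [] hx (by simp)
        | false :: w, hx => exact hc (false :: w) hx (by simp)
        | true :: w, hx => exact h w ((hW w).2 hx)
    rw [h1, Measure.infinitePi_pi]
    · have h2 : ∏ x ∈ s with ¬ x.head? = some true, nuJ A μ x (t x) = 1 := by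
        refine Finset.prod_eq_one fun x hx => ?_
        rw [Finset.mem_filter] at hx
        have h3 := hc x hx.1 hx.2
        match x, hx, h3 with
        | [], _, h3 =>
          show Measure.dirac false (t []) = 1
          rw [Measure.dirac_apply_of_mem]
          exact h3
        | false :: w, _, h3 =>
          show Measure.dirac (A w) (t (false :: w)) = 1
          rw [Measure.dirac_apply_of_mem]
          exact h3
        | true :: w, hx, _ => exact absurd rfl hx.2
      rw [h2, mul_one]
    · intro w hw
      exact ht _
  · push Not at hc
    obtain ⟨x, hx, hx', hx''⟩ := hc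
    have h1 : (join A) ⁻¹' ((s : Set (List Bool)).pi t) = ∅ := by
      rw [Set.eq_empty_iff_forall_notMem]
      intro R hR
      have h2 := hR x hx
      match x, hx', hx'', h2 with
      | [], _, h3, h2 => exact h3 h2
      | false :: w, _, h3, h2 => exact h3 h2
      | true :: w, h3, _, _ => exact h3 rfl
    have h2 : ∏ x ∈ s with ¬ x.head? = some true, nuJ A μ x (t x) = 0 := by
      refine Finset.prod_eq_zero (i := x) (Finset.mem_filter.2 ⟨hx, hx'⟩) ?_
      match x, hx, hx', hx'' with
      | [], hx, _, h3 =>
        show Measure.dirac false (t []) = 0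
        rw [Measure.dirac_apply' _ (ht _)]
        exact Set.indicator_of_notMem h3 _
      | false :: w, hx, _, h3 =>
        show Measure.dirac (A w) (t (false :: w)) = 0
        rw [Measure.dirac_apply' _ (ht _)]
        exact Set.indicator_of_notMem h3 _
      | true :: w, _, h3, _ => exact absurd rfl h3
    rw [h1, h2, mul_zero, measure_empty]

theorem random (A : Lang) (μ : Measure Bool) [IsProbabilityMeasure μ] (hμ : μ {true} = 2⁻¹) :
    ∀ᵐ R ∂(Measure.infinitePi fun _ : List Bool => μ), BothTrueExp (join A R) := by
  have h := random_oracle (nuJ A μ) fun w => hμ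
  rw [← map_join A μ] at h
  refine (ae_of_ae_map (measurable_joinR A).aemeasurable h).mono fun R hR => ?_
  obtain ⟨⟨B₀, h1, h2⟩, h3⟩ := hR
  exact ⟨⟨B₀, h1, h2⟩, fun B hB => h3 B hB.1⟩

end Pool.Agent.PLS
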