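import Pool.Agent.Lib_helper78.PLS.Defs
import Pool.Agent.Lib_helper78.FS.False
import Pool.Agent.Lib_helper78.TC.Main
import Pool.Agent.Lib_helper78.SP.Tri

/-!
# The three cases above every oracle (MP_5c38ab_lc)
-/

set_option autoImplicit false

namespace Pool.Agent.PLS

open Pool.Agent.CK Pool.Agent.RF Pool.Agent.RO Pool.Agent.ADV Pool.Agent.PHS Pool.Agent.FS Filter
open Pool.Agent.SP (NoCollapse few_min)

theorem three (R : Lang) (α : ℕ → ℕ) (hα : Tendsto α atTop atTop) :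
    (∃ W, Few α W ∧ (InfinitePH R → InfinitePH (join R W)) ∧ Q1False (join R W)) ∧
    (∃ W, Few α W ∧ (InfinitePH R → InfinitePH (join R W)) ∧ BothTrueExp (join R W)) ∧
    ∃ W, Few α W ∧ (InfinitePH R → InfinitePH (join R W)) ∧
      Q1True (join R W) ∧ ConFalse (join R W) := by
  obtain ⟨β, hβ, h1, h2⟩ := few_min hα
  refine ⟨?_, ?_, ?_⟩
  · obtain ⟨W, g1, -, ⟨B₀, g3, g3'⟩, g4⟩ := few_false R hβ
    exact ⟨W, h1 W g1, fun h k => (h2 R W g1).infinite h k, ⟨B₀, g3, g3'⟩, fun B hB => by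
      obtain ⟨S, hS, h5, -⟩ := g4 B hB.1.toBase
      exact ⟨S, hS, h5⟩⟩
  · obtain ⟨W, g1, ⟨B₀, g3, g3'⟩, g4⟩ := few_true R hβ
    exact ⟨W, h1 W g1, fun h k => (h2 R W g1).infinite h k, ⟨B₀, g3, g3'⟩,
      fun B hB => g4 B hB.1⟩
  · obtain ⟨W, g1, ⟨B₀, g3, g3'⟩, g4⟩ := Pool.Agent.TC.few_mixed R hβ
    exact ⟨W, h1 W g1, fun h k => (h2 R W g1).infinite h k,
      ⟨⟨B₀, g3, g3'⟩, fun B hB => (g4 B hB.1.toBase).2⟩,
      ⟨B₀, g3, g3'⟩, fun B hB => (g4 B hB.1.toBase).1⟩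

end Pool.Agent.PLS
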